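import Pool.Agent.W477.GM.Stms

/-!
Project GM (helper477), MP_3ade05_lc: hereditarily symmetric names.
-/

set_option autoImplicit false
set_option maxHeartbeats 1000000
set_option linter.unusedSectionVars false

namespace Pool.Agent.W477.GM.W790HS

open Pool.Agent.W477.GM

section

variable {P : Type 1} [PartialOrder P] [OrderTop P] {S : SysData P}

theorem hs_mk {ι : Type} {U : ι → P → Prop} {x : ι → Nm P} :
    HS S (.mk ι U x) ↔ (∃ a, ∀ i u, U i u → S.rho a u = u) ∧
      (∃ e, ∀ g, g ∈ S.fix e → ∀ p, feq (act g (.mk ι U x)) (.mk ι U x) p) ∧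
        ∀ i, HS S (x i) := Iff.rfl

theorem liv_mk {a : Ordinal.{0}} {ι : Type} {U : ι → P → Prop} {x : ι → Nm P} :
    Liv S a (.mk ι U x) ↔ (∀ i u, U i u → S.rho a u = u) ∧ ∀ i, Liv S a (x i) := Iff.rfl

theorem act_mk (g : P ≃o P) {ι : Type} {U : ι → P → Prop} {x : ι → Nm P} :
    act g (.mk ι U x) = .mk ι (fun i u => U i (g.symm u)) (fun i => act g (x i)) := rfl

theorem rtop (hS : SysAx S) (a : Ordinal.{0}) : S.rho a ⊤ = ⊤ := top_le_iff.1 (hS.le_rho a ⊤)

theorem liv_mono (hS : SysAx S) {a b : Ordinal.{0}} (hab : a ≤ b) (x : Nm P) :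
    Liv S a x → Liv S b x := by
  induction x with
  | mk ι U x ih =>
    intro h
    rw [liv_mk] at h ⊢
    refine ⟨fun i u hu => ?_, fun i => ih i (h.2 i)⟩
    have h1 := h.1 i u hu
    calc S.rho b u = S.rho b (S.rho a u) := by rw [h1]
      _ = S.rho a u := hS.rho_rho a b u hab
      _ = u := h1

theorem fix (a : Ordinal.{0}) (g : P ≃o P) (hg : ∀ u, S.rho a u = u → g u = u) (x : Nm P) :
    Liv S a x → act g x = x := by
  induction x with
  | mk ι U x ih =>
    intro h
    rw [liv_mk] at h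
    rw [act_mk]
    have h1 : (fun i u => U i (g.symm u)) = U := by
      funext i u
      apply propext
      constructor
      · intro hu
        have h2 := hg _ (h.1 i _ hu)
        rw [OrderIso.apply_symm_apply] at h2
        rw [h2]; exact hu
      · intro hu
        have h2 := hg _ (h.1 i _ hu)
        have h3 : g.symm u = u := by
          rw [OrderIso.symm_apply_eq]; exact h2.symm
        rw [h3]; exact hu
    have h2 : (fun i => act g (x i)) = x := funext fun i => ih i (h.2 i)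
    rw [h1, h2]

theorem lab_act (hS : SysAx S) {g : P ≃o P} (hg : g ∈ S.G) {a : Ordinal.{0}} {u : P}
    (h : S.rho a (g.symm u) = g.symm u) : S.rho a u = u := by
  have h1 := hS.rho_act g hg a (g.symm u)
  rw [OrderIso.apply_symm_apply, h, OrderIso.apply_symm_apply] at h1
  exact h1

theorem livact (hS : SysAx S) {g : P ≃o P} (hg : g ∈ S.G) (a : Ordinal.{0}) (x : Nm P) :
    Liv S a x → Liv S a (act g x) := by
  induction x with
  | mk ι U x ih =>
    intro h
    rw [liv_mk] at h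
    rw [act_mk, liv_mk]
    exact ⟨fun i u hu => lab_act hS hg (h.1 i _ hu), fun i => ih i (h.2 i)⟩

theorem sup_fam {κ : Type} (a : κ → Ordinal.{0}) : ∃ b : Ordinal.{0}, ∀ k, a k ≤ b :=
  ⟨⨆ k, a k, fun k => le_ciSup (Ordinal.bddAbove_of_small) k⟩

theorem liv (hS : SysAx S) (x : Nm P) : HS S x → ∃ a, Liv S a x := by
  induction x with
  | mk ι U x ih =>
    intro h
    rw [hs_mk] at h
    obtain ⟨⟨a0, ha0⟩, -, hc⟩ := h
    have h1 : ∀ i, ∃ a, Liv S a (x i) := fun i => ih i (hc i)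
    choose a ha using h1
    obtain ⟨b, hb⟩ := sup_fam a
    refine ⟨max a0 b, ?_⟩
    rw [liv_mk]
    refine ⟨fun i u hu => ?_, fun i => liv_mono hS ((hb i).trans (le_max_right _ _)) _ (ha i)⟩
    have h1 := ha0 i u hu
    calc S.rho (max a0 b) u = S.rho (max a0 b) (S.rho a0 u) := by rw [h1]
      _ = S.rho a0 u := hS.rho_rho _ _ u (le_max_left _ _)
      _ = u := h1

theorem livs (hS : SysAx S) (κ : Type) (z : κ → Nm P) (hz : ∀ k, HS S (z k)) :
    ∃ a, ∀ k, Liv S a (z k) := by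
  have h1 : ∀ k, ∃ a, Liv S a (z k) := fun k => liv hS (z k) (hz k)
  choose a ha using h1
  obtain ⟨b, hb⟩ := sup_fam a
  exact ⟨b, fun k => liv_mono hS (hb k) _ (ha k)⟩

theorem hs_act (hA : ActF P) (hS : SysAx S) {g : P ≃o P} (hg : g ∈ S.G) (x : Nm P) :
    HS S x → HS S (act g x) := by
  induction x with
  | mk ι U x ih =>
    intro h
    rw [hs_mk] at h
    obtain ⟨⟨a, ha⟩, ⟨e, he⟩, hc⟩ := h
    rw [act_mk, hs_mk]
    refine ⟨⟨a, fun i u hu => lab_act hS hg (ha i _ hu)⟩, ⟨e, fun k hk p => ?_⟩,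
      fun i => ih i (hc i)⟩
    rw [← act_mk, ← hA.mul, hS.comm k g (hS.fsub e k hk) hg, hA.mul]
    have h1 := (hA.feq g (act k (.mk ι U x)) (.mk ι U x) (g.symm p)).2 (he k hk _)
    rwa [OrderIso.apply_symm_apply] at h1

theorem livchk (hS : SysAx S) (b : Ordinal.{0}) (a : PSet.{0}) : Liv S b (chk a : Nm P) := by
  induction a with
  | mk α A ih =>
    show (∀ (_ : α) (u : P), u = ⊤ → S.rho b u = u) ∧ ∀ i, Liv S b (chk (A i) : Nm P)
    refine ⟨fun i u hu => ?_, ih⟩
    rw [hu]; exact rtop hS b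

theorem hs_chk (hE : EqF P) (hA : ActF P) (hS : SysAx S) (a : PSet.{0}) :
    HS S (chk a : Nm P) := by
  induction a with
  | mk α A ih =>
    obtain ⟨e⟩ := hS.ne
    have key : ∀ g : P ≃o P, act g (chk (PSet.mk α A) : Nm P) = chk (PSet.mk α A) :=
      fun g => hA.chk g _
    have hc : (chk (PSet.mk α A) : Nm P) = .mk α (fun _ u => u = ⊤) (fun a => chk (A a)) := rfl
    rw [hc] at key ⊢
    rw [hs_mk]
    refine ⟨⟨0, fun i u hu => by rw [hu]; exact rtop hS 0⟩, ⟨e, fun g hg p => ?_⟩, ih⟩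
    rw [key g]
    exact hE.refl _ _

theorem hs_pr (hS : SysAx S) (x y : Nm P)
    (hx : ∃ e, ∀ g, g ∈ S.fix e → ∀ p, feq (act g x) x p)
    (hy : ∃ e, ∀ g, g ∈ S.fix e → ∀ p, feq (act g y) y p) (h1 : HS S x) (h2 : HS S y) :
    HS S (prN x y) := by
  obtain ⟨e, he⟩ := hx
  obtain ⟨e', he'⟩ := hy
  obtain ⟨e'', he''⟩ := hS.dir e e'
  refine ⟨⟨0, fun i u hu => by rw [hu]; exact rtop hS 0⟩, ⟨e'', fun g hg p => ?_⟩, ?_⟩
  · have h3 : ∀ (b : Bool) (q : P), feq (act g (cond b x y)) (cond b x y) q := by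
      intro b q
      cases b
      · exact he' g (he'' g hg).2 q
      · exact he g (he'' g hg).1 q
    refine ⟨fun i q _ _ => ⟨q, le_rfl, i, ⟨⊤, rfl, le_top⟩, h3 i q⟩,
      fun i q _ _ => ⟨q, le_rfl, i, ⟨⊤, ?_, le_top⟩, h3 i q⟩⟩
    exact map_top g.symm
  · intro b
    cases b
    · exact h2
    · exact h1

theorem hs_supp (x : Nm P) (h : HS S x) : ∃ e, ∀ g, g ∈ S.fix e → ∀ p, feq (act g x) x p := by
  cases x with
  | mk ι U x => exact h.2.1

end

theorem hs_holds (h : P_EQ) (h2 : P_ACT) (_h3 : P_PR) : P_HS := by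
  intro P _ _ S hS
  have hE := h P
  have hA := h2 P
  have hpr : ∀ x y, HS S x → HS S y → HS S (prN x y) := fun x y hx hy =>
    hs_pr hS x y (hs_supp x hx) (hs_supp y hy) hx hy
  exact
  { act := fun g hg x hx => hs_act hA hS hg x hx
    supp := hs_supp
    liv := liv hS
    livs := livs hS
    liv_mono := fun a b x hab hx => liv_mono hS hab x hx
    fix := fun a g hg x hx => fix a g hg x hx
    livact := fun g hg a x hx => livact hS hg a x hx
    rtop := rtop hS
    top := fun g => map_top g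
    chk := hs_chk hE hA hS
    livchk := livchk hS
    op := fun x y hx hy => hpr _ _ (hpr _ _ hx hx) (hpr _ _ hx hy)
    pr := hpr
    child := fun ι U x hx i => hx.2.2 i }

end Pool.Agent.W477.GM.W790HS
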